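import Pool.Agent.N979.CAP.Stm
import Pool.Agent.H115R3.Filling.Fourier

set_option autoImplicit false

/-! Project CAP, part MON: strong monotonicity. -/

namespace Pool.Agent.N495.CAPMON

open Real Finset
open Pool.Agent.N979.CAP

theorem half_cos (N : ℕ) (hN : 2 ≤ N) : ∑ j ∈ range N, cos (2 * th N j) = 0 := by
  have hN0 : (N : ℝ) ≠ 0 := by positivity
  have h := Pool.Agent.H115R3.Filling.sum_cos N (by omega) 2 (by norm_num)
    (by rw [abs_of_nonneg (by norm_num)]; omega)
  rw [two_mul, Finset.sum_range_add] at h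
  have e : ∀ j ∈ range N, cos (((2 : ℤ) : ℝ) * (π * ((N + j : ℕ) : ℝ) / N)) =
      cos (((2 : ℤ) : ℝ) * (π * (j : ℝ) / N)) := by
    intro j _
    have : ((2 : ℤ) : ℝ) * (π * ((N + j : ℕ) : ℝ) / N) =
        ((2 : ℤ) : ℝ) * (π * (j : ℝ) / N) + 2 * π := by
      push_cast
      field_simp
      ring
    rw [this, cos_add_two_pi]
  rw [Finset.sum_congr rfl e] at h
  have h2 : ∑ j ∈ range N, cos (((2 : ℤ) : ℝ) * (π * (j : ℝ) / N)) =
      ∑ j ∈ range N, cos (2 * th N j) := by
    refine Finset.sum_congr rfl fun j _ => ?_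
    unfold th
    norm_num
  rw [h2] at h
  linarith

theorem half_sin (N : ℕ) (hN : 2 ≤ N) : ∑ j ∈ range N, sin (2 * th N j) = 0 := by
  have hN0 : (N : ℝ) ≠ 0 := by positivity
  have h := Pool.Agent.H115R3.Filling.sum_sin N (by omega) 2
    (by rw [abs_of_nonneg (by norm_num)]; omega)
  rw [two_mul, Finset.sum_range_add] at h
  have e : ∀ j ∈ range N, sin (((2 : ℤ) : ℝ) * (π * ((N + j : ℕ) : ℝ) / N)) =
      sin (((2 : ℤ) : ℝ) * (π * (j : ℝ) / N)) := by
    intro j _
    have : ((2 : ℤ) : ℝ) * (π * ((N + j : ℕ) : ℝ) / N) =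
        ((2 : ℤ) : ℝ) * (π * (j : ℝ) / N) + 2 * π := by
      push_cast
      field_simp
      ring
    rw [this, sin_add_two_pi]
  rw [Finset.sum_congr rfl e] at h
  have h2 : ∑ j ∈ range N, sin (((2 : ℤ) : ℝ) * (π * (j : ℝ) / N)) =
      ∑ j ∈ range N, sin (2 * th N j) := by
    refine Finset.sum_congr rfl fun j _ => ?_
    unfold th
    norm_num
  rw [h2] at h
  linarith

theorem sum_sq (N : ℕ) (hN : 2 ≤ N) (p q : ℝ) :
    ∑ j ∈ range N, (cos (th N j) * p + sin (th N j) * q) ^ 2 = N / 2 * (p ^ 2 + q ^ 2) := by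
  have e : ∀ j ∈ range N, (cos (th N j) * p + sin (th N j) * q) ^ 2 =
      (p ^ 2 + q ^ 2) / 2 + (p ^ 2 - q ^ 2) / 2 * cos (2 * th N j) +
        p * q * sin (2 * th N j) := by
    intro j _
    rw [cos_two_mul, sin_two_mul]
    have := sin_sq_add_cos_sq (th N j)
    have h2 : sin (th N j) ^ 2 = 1 - cos (th N j) ^ 2 := by linarith
    calc (cos (th N j) * p + sin (th N j) * q) ^ 2
        = cos (th N j) ^ 2 * p ^ 2 + 2 * p * q * (sin (th N j) * cos (th N j)) +
          sin (th N j) ^ 2 * q ^ 2 := by ring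
      _ = _ := by rw [h2]; ring
  rw [Finset.sum_congr rfl e, Finset.sum_add_distrib, Finset.sum_add_distrib, ← Finset.mul_sum,
    ← Finset.mul_sum, half_cos N hN, half_sin N hN, Finset.sum_const, Finset.card_range,
    nsmul_eq_mul]
  ring

theorem abs_dt (x y t : ℝ) (h : x ^ 2 + y ^ 2 ≤ 1) : -1 ≤ dt x y t ∧ dt x y t ≤ 1 := by
  have h2 : dt x y t ^ 2 ≤ 1 := by
    unfold dt
    have h3 := sin_sq_add_cos_sq t
    nlinarith [sq_nonneg (x * sin t - y * cos t)]
  exact ⟨by nlinarith, by nlinarith⟩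

theorem key (u v : ℝ) (hu1 : -1 ≤ u) (hu2 : u ≤ 1) (hv1 : -1 ≤ v) (hv2 : v ≤ 1) :
    (u - v) ^ 2 ≤ (arcsin u - arcsin v) * (u - v) := by
  have h1 : |sin (arcsin u) - sin (arcsin v)| ≤ |arcsin u - arcsin v| := by
    have h := Real.lipschitzWith_sin.dist_le_mul (arcsin u) (arcsin v)
    rw [Real.dist_eq, Real.dist_eq] at h
    simpa using h
  rw [sin_arcsin hu1 hu2, sin_arcsin hv1 hv2] at h1
  rcases le_total v u with h | h
  · have h2 := monotone_arcsin h
    rw [abs_of_nonneg (by linarith), abs_of_nonneg (by linarith)] at h1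
    nlinarith
  · have h2 := monotone_arcsin h
    rw [abs_of_nonpos (by linarith), abs_of_nonpos (by linarith)] at h1
    nlinarith

theorem main : S_MON := by
  intro N hN x y x' y' h h'
  have hN0 : (0 : ℝ) < N := by positivity
  have e1 : (Z1 N x y - Z1 N x' y') * (x - x') + (Z2 N x y - Z2 N x' y') * (y - y') =
      π / N * ∑ j ∈ range N, (arcsin (dt x y (th N j)) - arcsin (dt x' y' (th N j))) *
        (dt x y (th N j) - dt x' y' (th N j)) := by
    unfold Z1 Z2
    rw [← mul_sub, ← mul_sub, ← Finset.sum_sub_distrib, ← Finset.sum_sub_distrib, mul_assoc,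
      mul_assoc, ← mul_add, Finset.sum_mul, Finset.sum_mul, ← Finset.sum_add_distrib]
    congr 1
    refine Finset.sum_congr rfl fun j _ => ?_
    have e2 : dt x y (th N j) - dt x' y' (th N j) =
        cos (th N j) * (x - x') + sin (th N j) * (y - y') := by
      unfold dt; ring
    rw [e2]
    ring
  have e3 : ∑ j ∈ range N, (dt x y (th N j) - dt x' y' (th N j)) ^ 2 =
      N / 2 * ((x - x') ^ 2 + (y - y') ^ 2) := by
    rw [← sum_sq N hN]
    refine Finset.sum_congr rfl fun j _ => ?_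
    unfold dt
    ring
  have e4 : π / 2 * ((x - x') ^ 2 + (y - y') ^ 2) =
      π / N * ∑ j ∈ range N, (dt x y (th N j) - dt x' y' (th N j)) ^ 2 := by
    rw [e3]
    field_simp
  rw [e1, e4]
  apply mul_le_mul_of_nonneg_left _ (by positivity)
  refine Finset.sum_le_sum fun j _ => ?_
  have h1 := abs_dt x y (th N j) h
  have h2 := abs_dt x' y' (th N j) h'
  exact key _ _ h1.1 h1.2 h2.1 h2.2

end Pool.Agent.N495.CAPMON
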