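import Pool.Agent.N404.KL.Stm

/-!
# KL/HOEF: the sum of `exp(S²/2N)` over signs
-/

set_option autoImplicit false

namespace Pool.Agent.N495.KL_HOEF

open Finset Pool.Agent.N404.KL

theorem mgf (N : ℕ) (x : Fin N → Bool) (l : ℝ) :
    ∑ y : Fin N → Bool, Real.exp (l * ∑ a, sg (x a) * sg (y a)) ≤
      2 ^ N * Real.exp (N * (l ^ 2 / 2)) := by
  have h1 : ∀ y : Fin N → Bool, Real.exp (l * ∑ a, sg (x a) * sg (y a)) =
      ∏ a, Real.exp (l * (sg (x a) * sg (y a))) := by
    intro y
    rw [Finset.mul_sum, Real.exp_sum]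
  have h2 : ∑ y : Fin N → Bool, ∏ a, Real.exp (l * (sg (x a) * sg (y a))) =
      ∏ a : Fin N, ∑ b : Bool, Real.exp (l * (sg (x a) * sg b)) := by
    rw [Fintype.prod_sum]
  have h3 : ∀ a : Fin N, ∑ b : Bool, Real.exp (l * (sg (x a) * sg b)) = 2 * Real.cosh l := by
    intro a
    rw [Fintype.sum_bool, Real.cosh_eq]
    cases x a
    · simp [sg]
      ring
    · simp [sg]
      ring
  rw [Finset.sum_congr rfl fun y _ => h1 y, h2, Finset.prod_congr rfl fun a _ => h3 a,
    Finset.prod_const, Finset.card_univ, Fintype.card_fin, mul_pow]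
  apply mul_le_mul_of_nonneg_left _ (by positivity)
  rw [Real.exp_nat_mul]
  exact pow_le_pow_left₀ (Real.cosh_pos l).le (Real.cosh_le_exp_half_sq l) N

theorem main : S_HOEF := by
  classical
  intro N x
  rcases Nat.eq_zero_or_pos N with hN | hN
  · subst hN
    simp
  have hN' : (0 : ℝ) < N := by exact_mod_cast hN
  set i : (Fin N → Bool) → ℕ := fun y => (univ.filter fun a => x a = y a).card with hi
  have hS : ∀ y : Fin N → Bool, ∑ a, sg (x a) * sg (y a) = 2 * (i y : ℝ) - N := by
    intro y
    have h1 : ∀ a, sg (x a) * sg (y a) = 2 * (if x a = y a then (1 : ℝ) else 0) - 1 := by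
      intro a
      cases x a <;> cases y a <;> simp [sg] <;> norm_num
    rw [Finset.sum_congr rfl fun a _ => h1 a, Finset.sum_sub_distrib, ← Finset.mul_sum,
      Finset.sum_boole, Finset.sum_const, Finset.card_univ, Fintype.card_fin, nsmul_eq_mul, mul_one]
  have hmaps : ∀ y ∈ (univ : Finset (Fin N → Bool)), i y ∈ range (N + 1) := by
    intro y _
    rw [Finset.mem_range, Nat.lt_succ_iff]
    have := Finset.card_le_univ (univ.filter fun a => x a = y a)
    rwa [Fintype.card_fin] at this
  rw [← Finset.sum_fiberwise_of_maps_to hmaps]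
  have hin : ∀ k ∈ range (N + 1), ∑ y ∈ univ.filter (fun y => i y = k),
      Real.exp ((∑ a, sg (x a) * sg (y a)) ^ 2 / (2 * N)) ≤ 2 ^ N := by
    intro k _
    set v : ℝ := 2 * (k : ℝ) - N with hv
    have h1 : ∑ y ∈ univ.filter (fun y => i y = k),
        Real.exp ((∑ a, sg (x a) * sg (y a)) ^ 2 / (2 * N)) =
        ((univ.filter (fun y => i y = k)).card : ℝ) * Real.exp (v ^ 2 / (2 * N)) := by
      rw [← nsmul_eq_mul, ← Finset.sum_const]
      apply Finset.sum_congr rfl
      intro y hy
      rw [hS y, (Finset.mem_filter.1 hy).2]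
    have h2 : ((univ.filter (fun y => i y = k)).card : ℝ) * Real.exp (v ^ 2 / N) ≤
        2 ^ N * Real.exp (v ^ 2 / (2 * N)) := by
      have h3 : ((univ.filter (fun y => i y = k)).card : ℝ) * Real.exp (v ^ 2 / N) =
          ∑ y ∈ univ.filter (fun y => i y = k),
            Real.exp ((v / N) * ∑ a, sg (x a) * sg (y a)) := by
        rw [← nsmul_eq_mul, ← Finset.sum_const]
        apply Finset.sum_congr rfl
        intro y hy
        rw [hS y, (Finset.mem_filter.1 hy).2, ← hv]
        congr 1
        ring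
      rw [h3]
      refine (Finset.sum_le_sum_of_subset_of_nonneg (Finset.subset_univ _)
        (fun y _ _ => (Real.exp_pos _).le)).trans ((mgf N x (v / N)).trans (le_of_eq ?_))
      congr 2
      field_simp
    have h4 : Real.exp (v ^ 2 / N) = Real.exp (v ^ 2 / (2 * N)) * Real.exp (v ^ 2 / (2 * N)) := by
      rw [← Real.exp_add]
      congr 1
      field_simp
      ring
    rw [h4, ← mul_assoc] at h2
    rw [h1]
    exact le_of_mul_le_mul_right h2 (Real.exp_pos _)
  refine (Finset.sum_le_sum hin).trans (le_of_eq ?_)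
  rw [Finset.sum_const, Finset.card_range, nsmul_eq_mul]
  push_cast
  ring

end Pool.Agent.N495.KL_HOEF
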