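import Pool.Agent.N585.LB.Defs

/-!
# LB/4: monotone maps into ccc orders are continuous off a countable set
-/

set_option autoImplicit false

namespace Pool.Agent.N495.LBdisc

open Cardinal Set Pool.Agent.N585.LB

universe u

/-- a set of points with pairwise disjoint nonempty intervals attached to it is countable -/
theorem count_aux {A B : Type u} [LinearOrder A] [LinearOrder B] (hB : CCC B) (S : Set A)
    (l r : A → B) (hlr : ∀ x ∈ S, (Ioo (l x) (r x)).Nonempty)
    (hd : ∀ x ∈ S, ∀ y ∈ S, x < y → r x ≤ l y) : S.Countable := by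
  have hinj : InjOn (fun x => (l x, r x)) S := by
    intro x hx y hy hxy
    by_contra hne
    have h1 : l x = l y := congrArg Prod.fst hxy
    have h2 : r x = r y := congrArg Prod.snd hxy
    obtain ⟨b, hb1, hb2⟩ := hlr x hx
    rcases lt_or_gt_of_ne hne with h | h
    · have h3 := hd x hx y hy h
      rw [← h1] at h3
      exact absurd (hb1.trans hb2) (not_lt.2 h3)
    · have h3 := hd y hy x hx h
      rw [← h2] at h3
      exact absurd (hb1.trans hb2) (not_lt.2 h3)
  have hc := hB ((fun x => (l x, r x)) '' S)
    (by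
      rintro p ⟨x, hx, rfl⟩
      exact hlr x hx)
    (by
      rintro p ⟨x, hx, rfl⟩ q ⟨y, hy, rfl⟩ hpq
      have hne : x ≠ y := fun h => hpq (by rw [h])
      show Disjoint (Ioo (l x) (r x)) (Ioo (l y) (r y))
      rw [Set.disjoint_left]
      intro b hb hb'
      rcases lt_or_gt_of_ne hne with h | h
      · exact absurd (hb'.1.trans hb.2) (not_lt.2 (hd x hx y hy h))
      · exact absurd (hb.1.trans hb'.2) (not_lt.2 (hd y hy x hx h)))
  exact countable_of_injective_of_countable_image hinj hc

theorem stmDisc : StmDisc.{u} := by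
  classical
  refine ⟨?_, ?_⟩
  · intro A B _ _ _ f hB hf
    -- failures on the left
    set SL : Set A := {x | ∃ z, z < f x ∧ ∀ y, y < x → f y ≤ z} with hSL
    set SR : Set A := {x | ∃ z, f x < z ∧ ∀ y, x < y → z ≤ f y} with hSR
    have hL : SL.Countable := by
      have hch : ∀ x : A, ∃ z : B, x ∈ SL → (z < f x ∧ ∀ y, y < x → f y ≤ z) := by
        intro x
        by_cases hx : x ∈ SL
        · obtain ⟨z, hz⟩ := hx
          exact ⟨z, fun _ => hz⟩
        · exact ⟨f x, fun h => absurd h hx⟩
      choose l hl using hch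
      apply count_aux hB SL l f
      · intro x hx
        exact exists_between (hl x hx).1
      · intro x _ y hy hxy
        exact (hl y hy).2 x hxy
    have hR : SR.Countable := by
      have hch : ∀ x : A, ∃ z : B, x ∈ SR → (f x < z ∧ ∀ y, x < y → z ≤ f y) := by
        intro x
        by_cases hx : x ∈ SR
        · obtain ⟨z, hz⟩ := hx
          exact ⟨z, fun _ => hz⟩
        · exact ⟨f x, fun h => absurd h hx⟩
      choose r hr using hch
      apply count_aux hB SR f r
      · intro x hx
        exact exists_between (hr x hx).1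
      · intro x hx y _ hxy
        exact (hr x hx).2 y hxy
    refine (hL.union hR).mono ?_
    intro x hx
    rw [Set.mem_ofPred_eq, ContAt, not_and_or] at hx
    rcases hx with hx | hx
    · left
      push Not at hx
      obtain ⟨_, z, hz, hz2⟩ := hx
      exact ⟨z, hz, hz2⟩
    · right
      push Not at hx
      obtain ⟨_, z, hz, hz2⟩ := hx
      exact ⟨z, hz, hz2⟩
  · intro A B _ _ _ hB he F hF hFd
    obtain ⟨e⟩ := he
    have hinj : Function.Injective (fun p : A × A => (e p.1, e p.2)) := by
      intro p q hpq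
      exact Prod.ext (e.injective (congrArg Prod.fst hpq)) (e.injective (congrArg Prod.snd hpq))
    have hc := hB ((fun p : A × A => (e p.1, e p.2)) '' F)
      (by
        rintro _ ⟨p, hp, rfl⟩
        obtain ⟨x, hx1, hx2⟩ := hF p hp
        exact ⟨e x, e.lt_iff_lt.2 hx1, e.lt_iff_lt.2 hx2⟩)
      (by
        rintro _ ⟨p, hp, rfl⟩ _ ⟨q, hq, rfl⟩ hpq
        have hne : p ≠ q := fun h => hpq (by rw [h])
        have hd := hFd hp hq hne
        show Disjoint (Ioo (e p.1) (e p.2)) (Ioo (e q.1) (e q.2))
        rw [Set.disjoint_left]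
        intro b hb hb'
        have h1 : p.1 < p.2 := e.lt_iff_lt.1 (hb.1.trans hb.2)
        have h2 : p.1 < q.2 := e.lt_iff_lt.1 (hb.1.trans hb'.2)
        have h3 : q.1 < p.2 := e.lt_iff_lt.1 (hb'.1.trans hb.2)
        have h4 : q.1 < q.2 := e.lt_iff_lt.1 (hb'.1.trans hb'.2)
        obtain ⟨c, hc1, hc2⟩ := exists_between (max_lt (lt_min h1 h2) (lt_min h3 h4))
        have hd' : Disjoint (Ioo p.1 p.2) (Ioo q.1 q.2) := hd
        rw [Set.disjoint_left] at hd'
        exact hd' ⟨(le_max_left _ _).trans_lt hc1, hc2.trans_le (min_le_left _ _)⟩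
          ⟨(le_max_right _ _).trans_lt hc1, hc2.trans_le (min_le_right _ _)⟩)
    exact countable_of_injective_of_countable_image hinj.injOn hc

end Pool.Agent.N495.LBdisc
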