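import Pool.Agent.N585.LB.Defs

/-!
# LB/12: uncountable suborders of the fractal order
-/

set_option autoImplicit false

namespace Pool.Agent.N495.LBlevel

open Cardinal Set Pool.Agent.N585.LB

universe u

theorem lex_lt_iff {T : Type u} [LinearOrder T] (x y : Lex (ℕ → Lam T)) :
    x < y ↔ ∃ i, (∀ j, j < i → ofLex x j = ofLex y j) ∧ ofLex x i < ofLex y i := Iff.rfl

theorem lf_lt {T : Type u} [LinearOrder T] {s t : T} (h : s < t) : (lf s : Lam T) < lf t := by
  unfold lf
  exact Sum.Lex.inl_lt_inl_iff.2 h

theorem rt_lt {T : Type u} [LinearOrder T] {s t : T} (h : s < t) : (rt s : Lam T) < rt t := by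
  unfold rt
  exact Sum.Lex.inr_lt_inr_iff.2 (WithBot.coe_lt_coe.2 h)

theorem lam_cases {T : Type u} (a : Lam T) : (∃ t, a = lf t) ∨ a = mid T ∨ (∃ t, a = rt t) := by
  have h : ∀ b : T ⊕ WithBot T, (∃ t, toLex b = (lf t : Lam T)) ∨ toLex b = mid T ∨
      (∃ t, toLex b = (rt t : Lam T)) := by
    intro b
    rcases b with t | b
    · exact Or.inl ⟨t, rfl⟩
    · induction b with
      | bot => exact Or.inr (Or.inl rfl)
      | coe t => exact Or.inr (Or.inr ⟨t, rfl⟩)
  exact h (ofLex a)

/-- from a strictly increasing map into the letters to an uncountable set of `T` -/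
theorem from_lam {R T : Type u} [LinearOrder R] [LinearOrder T] (hR : Uncountable R)
    (h : R → Lam T) (hh : StrictMono h) : ∃ Z : Set T, ¬ Z.Countable ∧ Nonempty (↥Z ↪o R) := by
  classical
  -- a general step
  have key : ∀ c : T → Lam T, (∀ s t, s < t → c s < c t) → ¬ {x : R | ∃ t, h x = c t}.Countable →
      ∃ Z : Set T, ¬ Z.Countable ∧ Nonempty (↥Z ↪o R) := by
    intro c hc hunc
    have hcinj : Function.Injective c := by
      intro s t hst
      by_contra hne
      rcases lt_or_gt_of_ne hne with hlt | hlt
      · have := hc _ _ hlt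
        rw [hst] at this
        exact lt_irrefl _ this
      · have := hc _ _ hlt
        rw [hst] at this
        exact lt_irrefl _ this
    refine ⟨{t | ∃ x, h x = c t}, ?_, ?_⟩
    · intro hZ
      apply hunc
      have hch : ∀ x : R, ∃ t : T, (∃ t, h x = c t) → h x = c t := by
        intro x
        by_cases hx : ∃ t, h x = c t
        · obtain ⟨t, ht⟩ := hx
          exact ⟨t, fun _ => ht⟩
        · obtain hT | hT := isEmpty_or_nonempty T
          · exfalso
            apply hunc
            have : {x : R | ∃ t, h x = c t} = ∅ := by
              ext y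
              simp only [Set.mem_ofPred_eq, Set.mem_empty_iff_false, iff_false]
              rintro ⟨t, _⟩
              exact hT.elim t
            rw [this]
            exact Set.countable_empty
          · exact ⟨hT.some, fun h' => absurd h' hx⟩
      choose t ht using hch
      have hinj : InjOn t {x : R | ∃ t, h x = c t} := by
        intro x hx y hy hxy
        apply hh.injective
        rw [ht x hx, ht y hy, hxy]
      apply countable_of_injective_of_countable_image hinj
      apply hZ.mono
      rintro _ ⟨x, hx, rfl⟩
      exact ⟨x, ht x hx⟩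
    · have hch : ∀ z : ↥{t | ∃ x, h x = c t}, ∃ x, h x = c z.1 := fun z => z.2
      choose g hg using hch
      refine ⟨OrderEmbedding.ofStrictMono g ?_⟩
      intro z w hzw
      rw [← hh.lt_iff_lt, hg, hg]
      exact hc _ _ hzw
  by_cases h1 : {x : R | ∃ t, h x = lf t}.Countable
  · by_cases h2 : {x : R | ∃ t, h x = rt t}.Countable
    · exfalso
      have h3 : {x : R | h x = mid T}.Countable := by
        apply Set.Subsingleton.countable
        intro x hx y hy
        have hx' : h x = mid T := hx
        have hy' : h y = mid T := hy
        exact hh.injective (hx'.trans hy'.symm)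
      have h4 : (Set.univ : Set R).Countable := by
        apply ((h1.union h2).union h3).mono
        intro x _
        rcases lam_cases (h x) with hx | hx | hx
        · exact Or.inl (Or.inl hx)
        · exact Or.inr hx
        · exact Or.inl (Or.inr hx)
      exact (not_countable_iff.2 hR) (Set.countable_univ_iff.1 h4)
    · exact key _ (fun s t => rt_lt) h2
  · exact key _ (fun s t => lf_lt) h1

theorem level_aux (T : Type u) [LinearOrder T] (n : ℕ) : ∀ (R : Type u) [LinearOrder R],
    Uncountable R → ∀ g : R → Lex (ℕ → Lam T), StrictMono g →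
    (∀ x, ∀ m, n ≤ m → ofLex (g x) m = mid T) →
    ∃ Z : Set T, ¬ Z.Countable ∧ Nonempty (↥Z ↪o R) := by
  classical
  induction n with
  | zero =>
    intro R _ hR g hg hm
    exfalso
    have : Subsingleton R := by
      constructor
      intro x y
      apply hg.injective
      apply ofLex.injective
      funext m
      rw [hm x m (Nat.zero_le _), hm y m (Nat.zero_le _)]
    exact (not_countable_iff.2 hR) inferInstance
  | succ n ih =>
    intro R _ hR g hg hm
    set pre : R → Lex (ℕ → Lam T) := fun x => toLex (Function.update (ofLex (g x)) n (mid T))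
      with hpre
    have hpren : ∀ x, ofLex (pre x) n = mid T := by
      intro x
      rw [hpre]
      simp
    have hprem : ∀ x m, m ≠ n → ofLex (pre x) m = ofLex (g x) m := by
      intro x m hmn
      rw [hpre]
      simp [Function.update_of_ne hmn]
    by_cases hA : ∃ p, ¬ {x : R | pre x = p}.Countable
    · obtain ⟨p, hp⟩ := hA
      have hunc : Uncountable ↥{x : R | pre x = p} := by
        rw [← not_countable_iff]
        intro h
        exact hp (Set.countable_coe_iff.1 h)
      obtain ⟨Z, hZ, ⟨e⟩⟩ := from_lam (T := T) hunc (fun x => ofLex (g x.1) n) (by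
        intro x y hxy
        have h1 : g x.1 < g y.1 := hg hxy
        rw [lex_lt_iff] at h1
        obtain ⟨i, hi1, hi2⟩ := h1
        by_cases hin : i = n
        · rw [hin] at hi2
          exact hi2
        · exfalso
          have hx : pre x.1 = p := x.2
          have hy : pre y.1 = p := y.2
          have h2 : ofLex (g x.1) i = ofLex (g y.1) i := by
            rw [← hprem x.1 i hin, ← hprem y.1 i hin, hx, hy]
          rw [h2] at hi2
          exact lt_irrefl _ hi2)
      exact ⟨Z, hZ, ⟨e.trans (OrderEmbedding.subtype _)⟩⟩
    · push Not at hA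
      have hP : Uncountable ↥(Set.range pre) := by
        rw [← not_countable_iff]
        intro h
        have hc : (Set.range pre).Countable := Set.countable_coe_iff.1 h
        apply not_countable_iff.2 hR
        rw [← Set.countable_univ_iff]
        have h2 : (Set.univ : Set R) = ⋃ p ∈ Set.range pre, {x : R | pre x = p} := by
          ext x
          simp
        rw [h2]
        exact hc.biUnion fun p _ => hA p
      have hch : ∀ p : ↥(Set.range pre), ∃ x, pre x = p.1 := fun p => p.2
      choose r hr using hch
      have hrm : StrictMono r := by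
        intro p q hpq
        rw [← hg.lt_iff_lt]
        refine (lex_lt_iff _ _).2 ?_
        have h1 : pre (r p) < pre (r q) := by
          rw [hr, hr]
          exact hpq
        rw [lex_lt_iff] at h1
        obtain ⟨i, hi1, hi2⟩ := h1
        have hin : i < n := by
          by_contra hcon
          rcases Nat.lt_or_ge n i with h | h
          · rw [hprem _ _ h.ne', hprem _ _ h.ne', hm _ i h, hm _ i h] at hi2
            exact lt_irrefl _ hi2
          · have : i = n := by omega
            rw [this, hpren, hpren] at hi2
            exact lt_irrefl _ hi2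
        refine ⟨i, ?_, ?_⟩
        · intro j hj
          have h3 := hi1 j hj
          rwa [hprem _ _ (by omega), hprem _ _ (by omega)] at h3
        · rwa [hprem _ _ (by omega), hprem _ _ (by omega)] at hi2
      obtain ⟨Z, hZ, ⟨e⟩⟩ := ih ↥(Set.range pre) hP (fun p => p.1) (fun _ _ h => h) (by
        rintro ⟨_, x, rfl⟩ m hmn
        show ofLex (pre x) m = mid T
        rcases Nat.eq_or_lt_of_le hmn with h | h
        · rw [← h, hpren]
        · rw [hprem _ _ h.ne']
          exact hm x m h)
      exact ⟨Z, hZ, ⟨e.trans (OrderEmbedding.ofStrictMono r hrm)⟩⟩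

theorem stmLevel : StmLevel.{u} := by
  classical
  intro S T _ _ hS he
  obtain ⟨e⟩ := he
  by_cases hall : ∀ n : ℕ, {x : S | ∀ m, n ≤ m → ofLex (e x).1 m = mid T}.Countable
  · exfalso
    apply not_countable_iff.2 hS
    rw [← Set.countable_univ_iff]
    have h2 : (Set.univ : Set S) = ⋃ n : ℕ, {x : S | ∀ m, n ≤ m → ofLex (e x).1 m = mid T} := by
      ext x
      simp only [Set.mem_univ, Set.mem_iUnion, true_iff]
      exact (e x).2
    rw [h2]
    exact Set.countable_iUnion hall
  · push Not at hall
    obtain ⟨n, hn⟩ := hall
    have hunc : Uncountable ↥{x : S | ∀ m, n ≤ m → ofLex (e x).1 m = mid T} := by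
      rw [← not_countable_iff]
      intro h
      exact hn (Set.countable_coe_iff.1 h)
    obtain ⟨Z, hZ, ⟨f⟩⟩ := level_aux T n _ hunc (fun x => (e x.1).1)
      (fun x y hxy => e.lt_iff_lt.2 hxy) (fun x => x.2)
    exact ⟨Z, hZ, ⟨f.trans (OrderEmbedding.subtype _)⟩⟩

end Pool.Agent.N495.LBlevel
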